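import Pool.Agent.W95.BK.Stm

open Polynomial Topology Filter MeasureTheory
open scoped ENNReal

namespace Pool.Agent.W74.BK.NWROOT

open Pool.Agent.W95.BK

universe u

section
variable {K : Type u} [NontriviallyNormedField K] [IsUltrametricDist K]

/-- minimal index -/
theorem open_count (hN : S_NPOL.{u}) [IsAlgClosed K] (h : K[X]) (a : K) (ρ : ℝ) (hh : h ≠ 0)
    (hρ : 0 < ρ) (κ : ℕ → ℝ) (hκ : ∀ i, ‖(taylor a h).coeff i‖ = κ i) (k : ℕ)
    (h1 : ∀ i < k, κ i * ρ ^ i < κ k * ρ ^ k) (h2 : ∀ i, κ i * ρ ^ i ≤ κ k * ρ ^ k) :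
    nIn h {w | ‖w - a‖ < ρ} = k := by
  obtain ⟨-, g1, g2, g3, -, -⟩ := hN K h a ρ hh hρ
  simp only [hκ] at g1 g2 g3
  rcases lt_trichotomy (nIn h {w | ‖w - a‖ < ρ}) k with hlt | heq | hgt
  · have := h1 _ hlt
    rw [g2] at this
    exact absurd (g1 k) (not_le.2 this)
  · exact heq
  · have := g3 _ hgt
    rw [← g2] at this
    exact absurd (h2 _) (not_le.2 this)

/-- maximal index -/
theorem closed_count (hN : S_NPOL.{u}) [IsAlgClosed K] (h : K[X]) (a : K) (ρ : ℝ) (hh : h ≠ 0)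
    (hρ : 0 < ρ) (κ : ℕ → ℝ) (hκ : ∀ i, ‖(taylor a h).coeff i‖ = κ i) (k : ℕ)
    (h1 : ∀ i, k < i → κ i * ρ ^ i < κ k * ρ ^ k) (h2 : ∀ i, κ i * ρ ^ i ≤ κ k * ρ ^ k) :
    nIn h {w | ‖w - a‖ ≤ ρ} = k := by
  obtain ⟨-, g1, -, -, g2, g3⟩ := hN K h a ρ hh hρ
  simp only [hκ] at g1 g2 g3
  rcases lt_trichotomy (nIn h {w | ‖w - a‖ ≤ ρ}) k with hlt | heq | hgt
  · have := g3 _ hlt
    rw [← g2] at this
    exact absurd (h2 _) (not_le.2 this)
  · exact heq
  · have := h1 _ hgt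
    rw [g2] at this
    exact absurd (g1 k) (not_le.2 this)

theorem norm_coef (p q e : K) (r : ℝ) (he : ‖e‖ = r) (hb : q ≠ 0 → r ≤ ‖e - p / q‖) :
    ‖p - e * q‖ = max ‖p‖ (r * ‖q‖) := by
  apply le_antisymm
  · have h0 := IsUltrametricDist.norm_add_le_max p (-(e * q))
    rw [norm_neg, norm_mul, he, ← sub_eq_add_neg] at h0
    exact h0
  · by_cases hq : q = 0
    · simp [hq]
    have h1 : r * ‖q‖ ≤ ‖p - e * q‖ := by
      have e1 : p - e * q = -((e - p / q) * q) := by field_simp; ring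
      rw [e1, norm_neg, norm_mul]
      exact mul_le_mul_of_nonneg_right (hb hq) (norm_nonneg _)
    rcases le_or_gt ‖p‖ (r * ‖q‖) with h2 | h2
    · rw [max_eq_right h2]; exact h1
    · rw [max_eq_left h2.le]
      by_contra hcon
      push Not at hcon
      have h3 : ‖p‖ ≤ max ‖p - e * q‖ ‖e * q‖ := by
        have := IsUltrametricDist.norm_add_le_max (p - e * q) (e * q)
        simpa using this
      rw [norm_mul, he] at h3
      rcases le_max_iff.1 h3 with h4 | h4
      · exact absurd h4 (not_le.2 hcon)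
      · exact absurd h4 (not_le.2 h2)

end

/-- strict comparison of powers after decreasing the radius -/
theorem dec_pow {A B r s : ℝ} {i k : ℕ} (hB : 0 < B) (hs : 0 < s) (hsr : s < r)
    (hik : k < i) (h : A * r ^ i ≤ B * r ^ k) : A * s ^ i < B * s ^ k := by
  have hr : 0 < r := hs.trans hsr
  have e1 : A * s ^ i = A * r ^ i * (s / r) ^ i := by rw [div_pow]; field_simp
  have e2 : B * s ^ k = B * r ^ k * (s / r) ^ k := by rw [div_pow]; field_simp
  rw [e1, e2]
  have h1 : 0 < s / r := div_pos hs hr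
  have h2 : s / r < 1 := (div_lt_one hr).2 hsr
  have h3 : (s / r) ^ i < (s / r) ^ k := pow_lt_pow_right_of_lt_one₀ h1 h2 hik
  calc A * r ^ i * (s / r) ^ i ≤ B * r ^ k * (s / r) ^ i :=
        mul_le_mul_of_nonneg_right h (pow_nonneg h1.le _)
    _ < B * r ^ k * (s / r) ^ k := mul_lt_mul_of_pos_left h3 (mul_pos hB (pow_pos hr _))

/-- strict comparison of powers after increasing the radius -/
theorem inc_pow {A B r s : ℝ} {i k : ℕ} (hB : 0 < B) (hr : 0 < r) (hsr : r < s)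
    (hik : i < k) (h : A * r ^ i ≤ B * r ^ k) : A * s ^ i < B * s ^ k := by
  have hs : 0 < s := hr.trans hsr
  have e1 : A * s ^ i = A * r ^ i * (s / r) ^ i := by rw [div_pow]; field_simp
  have e2 : B * s ^ k = B * r ^ k * (s / r) ^ k := by rw [div_pow]; field_simp
  rw [e1, e2]
  have h1 : 1 < s / r := (one_lt_div hr).2 hsr
  have h3 : (s / r) ^ i < (s / r) ^ k := pow_lt_pow_right₀ h1 hik
  calc A * r ^ i * (s / r) ^ i ≤ B * r ^ k * (s / r) ^ i :=
        mul_le_mul_of_nonneg_right h (pow_nonneg (zero_le_one.trans h1.le) _)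
    _ < B * r ^ k * (s / r) ^ k := mul_lt_mul_of_pos_left h3 (mul_pos hB (pow_pos hr _))

theorem main : S_NPOL.{u} → S_NWI.{u} → S_NWROOT.{u} := by
  intro hN hI K _ _ _ f a c r hr hc
  classical
  obtain ⟨⟨hM, hNw, hIw, hNI, hId, hall, hlo, hhi⟩, -⟩ := hI K f a r hr
  set p : ℕ → K := fun i => (taylor a (f.P - C a * f.Q)).coeff i with hp
  set q : ℕ → K := fun i => (taylor a f.Q).coeff i with hq
  set κ : ℕ → ℝ := fun i => max ‖p i‖ (r * ‖q i‖) with hκ
  have hv : ∀ i, vI f a r i = κ i * r ^ i := fun i => rfl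
  simp only [hv] at hNw hIw hall hlo hhi
  have hκN : 0 < κ (Nw f a r) := by
    rw [← hNw] at hM
    exact pos_of_mul_pos_left hM (pow_nonneg hr.le _)
  have hκI : 0 < κ (Iw f a r) := by
    rw [← hIw] at hM
    exact pos_of_mul_pos_left hM (pow_nonneg hr.le _)
  have hPd : f.P.natDegree ≤ f.d := by rw [← f.deg_eq]; exact le_max_left _ _
  have hQd : f.Q.natDegree ≤ f.d := by rw [← f.deg_eq]; exact le_max_right _ _
  have hq0 : ∀ i, f.d < i → q i = 0 := by
    intro i hi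
    refine coeff_eq_zero_of_natDegree_lt ?_
    rw [natDegree_taylor]
    omega
  have hp0 : ∀ i, f.d < i → p i = 0 := by
    intro i hi
    refine coeff_eq_zero_of_natDegree_lt ?_
    rw [natDegree_taylor]
    have h1 : (f.P - C a * f.Q).natDegree ≤ f.d :=
      (natDegree_sub_le _ _).trans (max_le hPd ((natDegree_C_mul_le _ _).trans hQd))
    omega
  have hκ0 : ∀ i, f.d < i → κ i = 0 := by
    intro i hi
    simp [hκ, hq0 i hi, hp0 i hi]
  -- the smaller radius
  have hs1 : ∃ s : ℝ, 0 < s ∧ s < r ∧ ∀ i < Nw f a r, κ i * s ^ i < κ (Nw f a r) * s ^ (Nw f a r) := by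
    have h1 : ∀ᶠ s in 𝓝 r, ∀ i ∈ Finset.range (Nw f a r),
        κ i * s ^ i < κ (Nw f a r) * s ^ (Nw f a r) := by
      rw [Filter.eventually_all_finset]
      intro i hi
      have h2 := hlo i (Finset.mem_range.1 hi)
      rw [← hNw] at h2
      have c1 : ContinuousAt (fun s : ℝ => κ i * s ^ i) r := by fun_prop
      have c2 : ContinuousAt (fun s : ℝ => κ (Nw f a r) * s ^ (Nw f a r)) r := by fun_prop
      exact c1.eventually_lt c2 h2
    have h3 : ∀ᶠ s in 𝓝[<] r, (0 < s ∧ s < r) ∧ ∀ i ∈ Finset.range (Nw f a r),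
        κ i * s ^ i < κ (Nw f a r) * s ^ (Nw f a r) := by
      refine Filter.Eventually.and (Filter.Eventually.and ?_ ?_) (h1.filter_mono nhdsWithin_le_nhds)
      · exact (lt_mem_nhds hr).filter_mono nhdsWithin_le_nhds
      · exact self_mem_nhdsWithin
    obtain ⟨s, ⟨h4, h5⟩, h6⟩ := h3.exists
    exact ⟨s, h4, h5, fun i hi => h6 i (Finset.mem_range.2 hi)⟩
  have hs2 : ∃ s : ℝ, r < s ∧ ∀ i, Iw f a r < i → i ≤ f.d →
      κ i * s ^ i < κ (Iw f a r) * s ^ (Iw f a r) := by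
    have h1 : ∀ᶠ s in 𝓝 r, ∀ i ∈ Finset.Ioc (Iw f a r) f.d,
        κ i * s ^ i < κ (Iw f a r) * s ^ (Iw f a r) := by
      rw [Filter.eventually_all_finset]
      intro i hi
      have h2 := hhi i (Finset.mem_Ioc.1 hi).1
      rw [← hIw] at h2
      have c1 : ContinuousAt (fun s : ℝ => κ i * s ^ i) r := by fun_prop
      have c2 : ContinuousAt (fun s : ℝ => κ (Iw f a r) * s ^ (Iw f a r)) r := by fun_prop
      exact c1.eventually_lt c2 h2
    have h3 : ∀ᶠ s in 𝓝[>] r, r < s ∧ ∀ i ∈ Finset.Ioc (Iw f a r) f.d,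
        κ i * s ^ i < κ (Iw f a r) * s ^ (Iw f a r) := by
      refine Filter.Eventually.and ?_ (h1.filter_mono nhdsWithin_le_nhds)
      exact self_mem_nhdsWithin
    obtain ⟨s, h5, h6⟩ := h3.exists
    exact ⟨s, h5, fun i hi hi' => h6 i (Finset.mem_Ioc.2 ⟨hi, hi'⟩)⟩
  obtain ⟨s₁, hs10, hs1r, hs1⟩ := hs1
  obtain ⟨s₂, hs2r, hs2⟩ := hs2
  refine ⟨insert a ((Finset.range (f.d + 1)).image fun i => a + p i / q i), s₁, s₂, hs10, hs1r,
    hs2r, fun b hb hB => ?_⟩
  have hba : ‖b - a‖ = r := le_antisymm hb (hB a (Finset.mem_insert_self _ _))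
  have hcoef : ∀ i, ‖(taylor a (f.P - C b * f.Q)).coeff i‖ = κ i := by
    intro i
    have e1 : f.P - C b * f.Q = (f.P - C a * f.Q) - C (b - a) * f.Q := by
      rw [C_sub]; ring
    have e2 : (taylor a (f.P - C b * f.Q)).coeff i = p i - (b - a) * q i := by
      rw [e1, map_sub, coeff_sub, taylor_mul, taylor_C, coeff_C_mul]
    rw [e2]
    refine norm_coef _ _ _ _ hba fun hqi => ?_
    have hid : i ≤ f.d := by
      by_contra hcon
      exact hqi (hq0 i (by omega))
    have h1 := hB (a + p i / q i) (Finset.mem_insert_of_mem (Finset.mem_image.2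
      ⟨i, Finset.mem_range.2 (by omega), rfl⟩))
    rw [← sub_sub] at h1
    exact h1
  have hne : f.P - C b * f.Q ≠ 0 := by
    intro h0
    have h1 := hcoef (Nw f a r)
    rw [h0] at h1
    simp only [map_zero, coeff_zero, norm_zero] at h1
    rw [← h1] at hκN
    exact lt_irrefl _ hκN
  refine ⟨hne, ?_, ?_, ?_, ?_⟩
  · exact open_count hN _ a r hne hr κ hcoef _ (fun i hi => by rw [hNw]; exact hlo i hi)
      (fun i => by rw [hNw]; exact hall i)
  · have h1 : ∀ i, Nw f a r < i → κ i * s₁ ^ i < κ (Nw f a r) * s₁ ^ (Nw f a r) :=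
      fun i hi => dec_pow hκN hs10 hs1r hi (by rw [hNw]; exact hall i)
    refine closed_count hN _ a s₁ hne hs10 κ hcoef _ h1 fun i => ?_
    rcases lt_trichotomy i (Nw f a r) with h2 | h2 | h2
    · exact (hs1 i h2).le
    · rw [h2]
    · exact (h1 i h2).le
  · exact closed_count hN _ a r hne hr κ hcoef _ (fun i hi => by rw [hIw]; exact hhi i hi)
      (fun i => by rw [hIw]; exact hall i)
  · have h1 : ∀ i, i < Iw f a r → κ i * s₂ ^ i < κ (Iw f a r) * s₂ ^ (Iw f a r) :=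
      fun i hi => inc_pow hκI hr hs2r hi (by rw [hIw]; exact hall i)
    refine open_count hN _ a s₂ hne (hr.trans hs2r) κ hcoef _ h1 fun i => ?_
    rcases lt_trichotomy i (Iw f a r) with h2 | h2 | h2
    · exact (h1 i h2).le
    · rw [h2]
    · rcases Nat.lt_or_ge f.d i with h3 | h3
      · rw [hκ0 i h3, zero_mul]
        exact (mul_pos hκI (pow_pos (hr.trans hs2r) _)).le
      · exact (hs2 i h2 h3).le

end Pool.Agent.W74.BK.NWROOT
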