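import Pool.Agent.W622.BK.Stm

/-! Project BK (helper622), part SEC: a linear section of the contraction. -/

set_option autoImplicit false

namespace Pool.Agent.W74.BK

open Module Pool.Agent.W622.BK

universe u

theorem sec_aux {k : Type u} [Field k] {A B : Type u} [AddCommGroup A] [Module k A]
    [AddCommGroup B] [Module k B] (L0 : A →ₗ[k] B) (P : Submodule k A) (T : Submodule k B)
    (h : ∀ η ∈ T, ∃ ω ∈ P, L0 ω = η) : ∃ σ : B →ₗ[k] A, ∀ η ∈ T, σ η ∈ P ∧ L0 (σ η) = η := by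
  let S : Submodule k A := P ⊓ T.comap L0
  let f : S →ₗ[k] T := L0.restrict (p := S) (q := T) (fun x hx => hx.2)
  have hf : Function.Surjective f := by
    rintro ⟨η, hη⟩
    obtain ⟨ω, hω, hωu⟩ := h η hη
    refine ⟨⟨ω, hω, ?_⟩, ?_⟩
    · show L0 ω ∈ T
      rw [hωu]
      exact hη
    · apply Subtype.ext
      exact hωu
  obtain ⟨g, hg⟩ := LinearMap.exists_rightInverse_of_surjective f (LinearMap.range_eq_top.mpr hf)
  obtain ⟨σ, hσ⟩ := LinearMap.exists_extend (S.subtype ∘ₗ g)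
  refine ⟨σ, fun η hη => ?_⟩
  have h1 : σ η = (g ⟨η, hη⟩ : A) := LinearMap.congr_fun hσ ⟨η, hη⟩
  rw [h1]
  exact ⟨(g ⟨η, hη⟩).2.1, congrArg Subtype.val (LinearMap.congr_fun hg ⟨η, hη⟩)⟩

theorem t_SEC : Pool.Agent.W622.BK.S_SEC.{u} := by
  intro k _ E _ _ R X u n hs
  exact sec_aux ((LinearMap.applyₗ u : (E →ₗ[k] G k E n) →ₗ[k] G k E n) ∘ₗ
    (cur k E).toLinearMap) (D R X (n + 1)) (D R (Nn R X u) n) hs

end Pool.Agent.W74.BK
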